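import Pool.Agent.Helper69_LT.PRI

/-!
# LT, module IMG: few simplices in the coarse complex
-/

set_option autoImplicit false

namespace Pool.Agent.LT

namespace Img

lemma ncard_range_le {V Y : Type} [Fintype V] (Ψ : V → Y) (E : Finset V) (L : ℕ) (hL : 0 < L)
    (h : ∀ v ∉ E, ∃ F : Finset V, F.card = L ∧ ∀ w ∈ F, Ψ w = Ψ v) :
    ((Set.range Ψ).ncard : ℝ) ≤ Fintype.card V / L + E.card := by
  classical
  set t : Finset Y := (Finset.univ.filter fun v => v ∉ E).image Ψ with ht
  have h1 : L * t.card ≤ Fintype.card V := by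
    have h2 : L * t.card ≤ (Finset.univ.filter fun v => Ψ v ∈ t).card := by
      refine Finset.mul_card_image_le_card_of_maps_to (f := Ψ) (fun v hv => ?_) L ?_
      · exact (Finset.mem_filter.1 hv).2
      · intro y hy
        obtain ⟨v, hv, rfl⟩ := Finset.mem_image.1 hy
        obtain ⟨F, hF, hF'⟩ := h v (Finset.mem_filter.1 hv).2
        rw [← hF]
        refine Finset.card_le_card fun w hw => ?_
        rw [Finset.mem_filter, Finset.mem_filter, hF' w hw]
        exact ⟨⟨Finset.mem_univ _, hy⟩, rfl⟩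
    exact h2.trans (Finset.card_le_univ _)
  have h3 : (Set.range Ψ).ncard ≤ t.card + E.card := by
    have h4 : Set.range Ψ ⊆ ↑(t ∪ E.image Ψ) := by
      rintro _ ⟨v, rfl⟩
      by_cases hv : v ∈ E
      · simp only [Finset.coe_union, Set.mem_union, Finset.mem_coe]
        exact Or.inr (Finset.mem_image_of_mem _ hv)
      · simp only [Finset.coe_union, Set.mem_union, Finset.mem_coe]
        refine Or.inl (Finset.mem_image_of_mem _ ?_)
        simp [hv]
    calc (Set.range Ψ).ncard ≤ (↑(t ∪ E.image Ψ) : Set Y).ncard :=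
          Set.ncard_le_ncard h4 (Finset.finite_toSet _)
      _ = (t ∪ E.image Ψ).card := Set.ncard_coe_finset _
      _ ≤ t.card + (E.image Ψ).card := Finset.card_union_le _ _
      _ ≤ t.card + E.card := Nat.add_le_add_left Finset.card_image_le _
  have hL' : (0 : ℝ) < L := by exact_mod_cast hL
  have h5 : (t.card : ℝ) ≤ Fintype.card V / L := by
    rw [le_div_iff₀ hL', mul_comm]
    exact_mod_cast h1
  have h6 : ((Set.range Ψ).ncard : ℝ) ≤ t.card + E.card := by exact_mod_cast h3
  linarith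

lemma exists_list {G V : Type} (f : G → V) (S : Finset G) (l : List V)
    (h : ∀ w ∈ l, ∃ s ∈ S, w = f s) : ∃ s : List G, (∀ g ∈ s, g ∈ S) ∧ l = s.map f := by
  induction l with
  | nil => exact ⟨[], by simp, rfl⟩
  | cons w l ih =>
    obtain ⟨s, hs, h1⟩ := ih fun x hx => h x (List.mem_cons_of_mem _ hx)
    obtain ⟨g, hg, h2⟩ := h w List.mem_cons_self
    refine ⟨g :: s, ?_, by rw [List.map_cons, ← h1, ← h2]⟩
    intro x hx
    rcases List.mem_cons.1 hx with rfl | hx
    · exact hg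
    · exact hs x hx

lemma finite_lists {G : Type} (S : Finset G) (n : ℕ) :
    {s : List G | s.length ≤ n ∧ ∀ g ∈ s, g ∈ S}.Finite := by
  refine ((List.finite_length_le S n).image (List.map Subtype.val)).subset ?_
  rintro s ⟨h1, h2⟩
  refine ⟨s.attach.map fun g => ⟨g.1, h2 g.1 g.2⟩, ?_, ?_⟩
  · simpa using h1
  · simp [List.map_map, Function.comp_def]

lemma final_arith {κ m x L E nb s t t' : ℝ} (hκ : 0 < κ) (hm0 : 0 < m) (hv0 : 0 ≤ x)
    (hnb0 : 0 ≤ nb) (hs : 0 ≤ s) (ht : 0 ≤ t) (ht'0 : 0 ≤ t') (htt : t' ≤ t)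
    (hL : m / L ≤ κ / 3) (hnb : nb ≤ κ / (3 * m * (s * t + 1)) * x)
    (hE : E ≤ nb + s * (t' * (2 * (κ / (6 * m * (s * t + 1))) * x + nb))) :
    m * (x / L + E) ≤ κ * x := by
  have hp0 : 0 ≤ s * t := by positivity
  obtain ⟨p, hp⟩ : ∃ p, p = s * t := ⟨_, rfl⟩
  rw [← hp] at hnb hE hp0
  obtain ⟨δ, hδ⟩ : ∃ δ, δ = κ / (6 * m * (p + 1)) := ⟨_, rfl⟩
  obtain ⟨ε, hε⟩ : ∃ ε, ε = κ / (3 * m * (p + 1)) := ⟨_, rfl⟩
  rw [← hδ] at hE
  rw [← hε] at hnb
  have hδ0 : 0 < δ := by rw [hδ]; positivity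
  have hε0 : 0 < ε := by rw [hε]; positivity
  have hE2 : E ≤ ε * x + p * (2 * δ * x + ε * x) := by
    refine hE.trans ?_
    have h1 : t' * (2 * δ * x + nb) ≤ t * (2 * δ * x + ε * x) :=
      mul_le_mul htt (by linarith) (by positivity) ht
    have h2 : s * (t' * (2 * δ * x + nb)) ≤ s * (t * (2 * δ * x + ε * x)) :=
      mul_le_mul_of_nonneg_left h1 hs
    have h3 : s * (t * (2 * δ * x + ε * x)) = p * (2 * δ * x + ε * x) := by rw [hp]; ring
    linarith
  have e1 : m * (p * (2 * δ)) ≤ κ / 3 := by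
    have : m * (p * (2 * δ)) = κ / 3 * (p / (p + 1)) := by
      rw [hδ]; field_simp; ring
    rw [this]
    have h1 : p / (p + 1) ≤ 1 := by rw [div_le_one (by positivity)]; linarith
    nlinarith
  have e2 : m * (ε + p * ε) = κ / 3 := by
    rw [hε]; field_simp; ring
  have e3 : m * (x / L) ≤ κ / 3 * x := by
    have : m * (x / L) = m / L * x := by ring
    rw [this]
    exact mul_le_mul_of_nonneg_right hL hv0
  have e4 : m * E ≤ m * (ε * x + p * (2 * δ * x + ε * x)) :=
    mul_le_mul_of_nonneg_left hE2 hm0.le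
  have e5 : m * (ε * x + p * (2 * δ * x + ε * x)) = (m * (p * (2 * δ)) + m * (ε + p * ε)) * x := by
    ring
  have e6 : (m * (p * (2 * δ)) + m * (ε + p * ε)) * x ≤ (κ / 3 + κ / 3) * x :=
    mul_le_mul_of_nonneg_right (by linarith) hv0
  have e7 : m * (x / L + E) = m * (x / L) + m * E := by ring
  rw [e7]
  linarith

end Img

open Img

theorem img_of (hpri : PriStmt) : ImgStmt := by
  classical
  intro G _ N hN hinf hamen S n κ hκ
  set Λ : Finset (List G) := (finite_lists S (n + 1)).toFinset with hΛ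
  set m : ℝ := Λ.card + 1 with hm
  have hm0 : 0 < m := by positivity
  obtain ⟨L, hL0, hL⟩ : ∃ L : ℕ, 0 < L ∧ m / L ≤ κ / 3 := by
    obtain ⟨L, hL⟩ := exists_nat_gt (3 * m / κ)
    have h0 : (0 : ℝ) < L := lt_trans (by positivity) hL
    refine ⟨L, by exact_mod_cast h0, ?_⟩
    rw [div_le_iff₀ h0]
    rw [div_lt_iff₀ hκ] at hL
    linarith
  obtain ⟨T0, hT0⟩ := Infinite.exists_subset_card_eq N L
  -- conjugates
  have hcj : ∀ (g : G) (t : N), g⁻¹ * t * g ∈ N := fun g t => by
    have := hN.conj_mem t.1 t.2 g⁻¹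
    simpa using this
  set T : Finset N := (S ×ˢ T0).image fun p => (⟨p.1⁻¹ * p.2 * p.1, hcj p.1 p.2⟩ : N) with hT
  set p : ℝ := S.card * T.card with hp
  have hp0 : 0 ≤ p := by positivity
  set δ : ℝ := κ / (6 * m * (p + 1)) with hδ
  have hδ0 : 0 < δ := by positivity
  set ε : ℝ := κ / (3 * m * (p + 1)) with hε
  have hε0 : 0 < ε := by positivity
  obtain ⟨F, hF0, hF⟩ := hamen T δ hδ0
  set Q : Finset G := F.image Subtype.val with hQ
  set TG : Finset G := T.image Subtype.val with hTG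
  set R : Finset G := Q ∪ TG ∪ T0.image Subtype.val ∪ S ∪
    (TG ×ˢ Q).image (fun q => q.1 * q.2) with hR
  have hQR : Q ⊆ R := fun x hx => by simp only [hR, Finset.mem_union]; tauto
  have hTR : TG ⊆ R := fun x hx => by simp only [hR, Finset.mem_union]; tauto
  have hT0R : T0.image Subtype.val ⊆ R := fun x hx => by simp only [hR, Finset.mem_union]; tauto
  have hSR : S ⊆ R := fun x hx => by simp only [hR, Finset.mem_union]; tauto
  have hTQR : ∀ t ∈ TG, ∀ q ∈ Q, t * q ∈ R := fun t ht q hq => by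
    have : t * q ∈ (TG ×ˢ Q).image (fun q => q.1 * q.2) :=
      Finset.mem_image.2 ⟨(t, q), Finset.mem_product.2 ⟨ht, hq⟩, rfl⟩
    simp only [hR, Finset.mem_union]; tauto
  refine ⟨Q, R, ε, hε0, ?_⟩
  intro V _ a ha hnb
  have hQne : Q.Nonempty := hF0.image _
  have hQcard : Q.card = F.card := Finset.card_image_of_injective _ Subtype.val_injective
  have hfol : ∀ t ∈ TG, ({q | q ∈ Q ∧ t * q ∉ Q}.ncard : ℝ) ≤ δ * Q.card := by
    intro t ht
    obtain ⟨t, ht2, rfl⟩ := Finset.mem_image.1 ht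
    rw [hQcard]
    refine le_trans ?_ (hF t ht2)
    have : ({q | q ∈ Q ∧ (t : G) * q ∉ Q} : Set G) ⊆
        Subtype.val '' ({f | f ∈ F ∧ t * f ∉ F} : Set N) := by
      rintro q ⟨hq, hq'⟩
      obtain ⟨f, hf, rfl⟩ := Finset.mem_image.1 hq
      refine ⟨f, ⟨hf, fun h => hq' ?_⟩, rfl⟩
      exact Finset.mem_image.2 ⟨t * f, h, rfl⟩
    have hfin : ({f | f ∈ F ∧ t * f ∉ F} : Set N).Finite :=
      (Finset.finite_toSet F).subset fun f hf => hf.1
    have h1 := Set.ncard_le_ncard this (hfin.image _)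
    exact_mod_cast h1.trans (Set.ncard_image_le hfin)
  obtain ⟨c, hc, hsum⟩ := hpri G V a Q TG R δ hQne hfol hQR hTR hTQR
  refine ⟨c, hc, ?_⟩
  -- the exceptional set
  set B : G → Finset V := fun t => Finset.univ.filter fun v => c (a v t) ≠ c v with hB
  have hBc : ∀ t, (B t).card = ({v | c (a v t) ≠ c v} : Set V).ncard := by
    intro t
    have : ({v | c (a v t) ≠ c v} : Set V) = ↑(B t) := by ext v; simp [hB]
    rw [this, Set.ncard_coe_finset]
  set E : Finset V := (Finset.univ.filter fun v => v ∈ (Gd a R)ᶜ) ∪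
    S.biUnion fun g => TG.biUnion fun t => Finset.univ.filter fun u => a u g ∈ B t with hE
  have hEc : (E.card : ℝ) ≤ nb a R + S.card * (TG.card * (2 * δ * Fintype.card V + nb a R)) := by
    have h1 : (Finset.univ.filter fun v => v ∈ (Gd a R)ᶜ).card = nb a R := by
      unfold nb
      have : ((Gd a R)ᶜ : Set V) = ↑(Finset.univ.filter fun v => v ∈ (Gd a R)ᶜ) := by
        ext v; simp
      rw [← Set.ncard_coe_finset, ← this]
    have h2 : (S.biUnion fun g => TG.biUnion fun t =>
        Finset.univ.filter fun u => a u g ∈ B t).card ≤ ∑ g ∈ S, ∑ t ∈ TG, (B t).card := by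
      refine Finset.card_biUnion_le.trans (Finset.sum_le_sum fun g _ => ?_)
      refine Finset.card_biUnion_le.trans (Finset.sum_le_sum fun t _ => ?_)
      refine Finset.card_le_card_of_injOn (fun u => a u g) ?_ ((ha g).1.injOn)
      intro u hu
      simpa using hu
    have h3 : (∑ t ∈ TG, ((B t).card : ℝ)) ≤
        TG.card * (2 * δ * Fintype.card V + nb a R) := by
      simpa only [hBc] using hsum
    have h4 : (E.card : ℝ) ≤ nb a R + ∑ g ∈ S, ∑ t ∈ TG, ((B t).card : ℝ) := by
      have h5 : E.card ≤ nb a R + ∑ g ∈ S, ∑ t ∈ TG, (B t).card := by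
        refine (Finset.card_union_le _ _).trans ?_
        rw [h1]
        exact Nat.add_le_add_left h2 _
      exact_mod_cast h5
    rw [Finset.sum_const, nsmul_eq_mul] at h4
    refine h4.trans (add_le_add_right (mul_le_mul_of_nonneg_left h3 (Nat.cast_nonneg _)) _)
  -- the fibres are large
  set Ψ : List G → V → List V := fun s u => (s.map (a u)).map c with hΨ
  have hfib : ∀ s ∈ Λ, ((Set.range (Ψ s)).ncard : ℝ) ≤ Fintype.card V / L + E.card := by
    intro s hs
    refine ncard_range_le (Ψ s) E L hL0 fun u hu => ?_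
    have huG : u ∈ Gd a R := by
      by_contra h
      exact hu (Finset.mem_union_left _ (Finset.mem_filter.2 ⟨Finset.mem_univ _, h⟩))
    obtain ⟨_, hact, hfree⟩ := huG
    have hTT : ∀ t ∈ T0, (t : G) ∈ R := fun t ht => hT0R (Finset.mem_image_of_mem _ ht)
    refine ⟨T0.image fun t : N => a u (t : G), ?_, ?_⟩
    · rw [Finset.card_image_of_injOn, hT0]
      intro t ht t' ht' h
      exact Subtype.ext (hfree _ (hTT t ht) _ (hTT t' ht') h)
    · intro w hw
      obtain ⟨t, ht, rfl⟩ := Finset.mem_image.1 hw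
      simp only [hΨ, List.map_map]
      refine List.map_congr_left fun g hg => ?_
      have hsΛ : s.length ≤ n + 1 ∧ ∀ g ∈ s, g ∈ S := by simpa [hΛ] using hs
      have hgS : g ∈ S := hsΛ.2 g hg
      simp only [Function.comp]
      have ht' : g⁻¹ * (t : G) * g ∈ TG := by
        refine Finset.mem_image.2 ⟨⟨g⁻¹ * t * g, hcj g t⟩, ?_, rfl⟩
        exact Finset.mem_image.2 ⟨(g, t), Finset.mem_product.2 ⟨hgS, ht⟩, rfl⟩
      rw [hact _ (hTT t ht) g (hSR hgS)]
      have h6 : (t : G) * g = g * (g⁻¹ * t * g) := by group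
      rw [h6, ← hact g (hSR hgS) _ (hTR ht')]
      by_contra hne
      apply hu
      refine Finset.mem_union_right _ (Finset.mem_biUnion.2 ⟨g, hgS, ?_⟩)
      refine Finset.mem_biUnion.2 ⟨_, ht', ?_⟩
      rw [Finset.mem_filter]
      exact ⟨Finset.mem_univ _, by simpa [hB] using hne⟩
  -- all simplices
  have hIm : Im a S c n ⊆ ⋃ s ∈ Λ, Set.range (Ψ s) := by
    rintro l ⟨hl0, hln, l', hl', rfl⟩
    cases l' with
    | nil => exact absurd rfl hl0
    | cons u l'' =>
      obtain ⟨s, hs, h1⟩ := exists_list (a u) S (u :: l'')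
        (fun w hw => hl' u List.mem_cons_self w hw)
      simp only [Set.mem_iUnion]
      refine ⟨s, ?_, u, ?_⟩
      · rw [hΛ, Set.Finite.mem_toFinset]
        refine ⟨?_, hs⟩
        rw [List.length_map, h1, List.length_map] at hln
        exact hln
      · simp only [hΨ]
        rw [h1]
  have hcard : ((Im a S c n).ncard : ℝ) ≤ m * (Fintype.card V / L + E.card) := by
    have hfin : (⋃ s ∈ Λ, Set.range (Ψ s)).Finite :=
      Set.Finite.biUnion (Finset.finite_toSet Λ) fun s _ => Set.finite_range _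
    have h1 : (Im a S c n).ncard ≤ ∑ s ∈ Λ, (Set.range (Ψ s)).ncard :=
      (Set.ncard_le_ncard hIm hfin).trans (Finset.set_ncard_biUnion_le _ _)
    have h2 : ((Im a S c n).ncard : ℝ) ≤ ∑ s ∈ Λ, ((Set.range (Ψ s)).ncard : ℝ) := by
      exact_mod_cast h1
    refine h2.trans ((Finset.sum_le_sum hfib).trans ?_)
    rw [Finset.sum_const, nsmul_eq_mul]
    refine mul_le_mul_of_nonneg_right ?_ (by positivity)
    rw [hm]; linarith
  refine hcard.trans ?_
  refine final_arith (L := L) (x := Fintype.card V) (nb := nb a R) (s := S.card) (t := T.card)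
    (t' := TG.card) hκ hm0 (Nat.cast_nonneg _) (Nat.cast_nonneg _) (Nat.cast_nonneg _)
    (Nat.cast_nonneg _) (Nat.cast_nonneg _) ?_ hL hnb hEc
  exact_mod_cast Finset.card_image_le

theorem img : ImgStmt := img_of pri

end Pool.Agent.LT
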