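import Pool.Agent.Helper61_LT.Stmts

/-!
# LT, module PRI: coarsening by random priorities

We average over all permutations of `V`: `c v` is the element of the window `{a v q : q ∈ Q}` with
the smallest priority.
-/

set_option autoImplicit false

namespace Pool.Agent.LT

namespace Pri

variable {V : Type} [Fintype V] [DecidableEq V]

/-- The priority of `v` for the permutation `σ`. -/
noncomputable def prio (σ : Equiv.Perm V) (v : V) : Fin (Fintype.card V) :=
  Fintype.equivFin V (σ v)

lemma prio_inj (σ : Equiv.Perm V) : Function.Injective (prio σ) :=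
  (Fintype.equivFin V).injective.comp σ.injective

/-- `u` is the element of `U` of smallest priority. -/
def Mi (σ : Equiv.Perm V) (U : Finset V) (u : V) : Prop :=
  u ∈ U ∧ ∀ w ∈ U, prio σ u ≤ prio σ w

lemma mi_unique {σ : Equiv.Perm V} {U : Finset V} {u w : V} (hu : Mi σ U u) (hw : Mi σ U w) :
    u = w :=
  prio_inj σ (le_antisymm (hu.2 w hw.1) (hw.2 u hu.1))

lemma exists_mi (σ : Equiv.Perm V) {U : Finset V} (hU : U.Nonempty) : ∃ u, Mi σ U u := by
  obtain ⟨u, hu, h⟩ := Finset.exists_min_image U (prio σ) hU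
  exact ⟨u, hu, h⟩

lemma mi_subset {σ : Equiv.Perm V} {U W : Finset V} {u : V} (hu : Mi σ U u) (hW : W ⊆ U)
    (h : u ∈ W) : Mi σ W u :=
  ⟨h, fun w hw => hu.2 w (hW hw)⟩

open Classical in
/-- The number of permutations with minimum at `u`. -/
noncomputable def cnt (U : Finset V) (u : V) : ℕ :=
  (Finset.univ.filter fun σ : Equiv.Perm V => Mi σ U u).card

lemma cnt_le {U : Finset V} {u w : V} (hu : u ∈ U) (hw : w ∈ U) : cnt U u ≤ cnt U w := by
  classical
  unfold cnt
  refine Finset.card_le_card_of_injOn (fun σ => σ * Equiv.swap u w) ?_ ?_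
  · intro σ hσ
    simp only [Finset.coe_filter, Finset.mem_univ, true_and, Set.mem_setOf_eq] at hσ ⊢
    refine ⟨hw, fun x hx => ?_⟩
    have h1 : prio (σ * Equiv.swap u w) w = prio σ u := by
      simp [prio]
    have h2 : prio (σ * Equiv.swap u w) x = prio σ (Equiv.swap u w x) := by
      simp [prio]
    rw [h1, h2]
    apply hσ.2
    by_cases hxu : x = u
    · subst hxu; simpa using hw
    · by_cases hxw : x = w
      · subst hxw; simpa using hu
      · rwa [Equiv.swap_apply_of_ne_of_ne hxu hxw]
  · intro σ _ τ _ h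
    exact mul_right_cancel h

lemma cnt_mul {U : Finset V} {u : V} (hu : u ∈ U) :
    U.card * cnt U u = Fintype.card (Equiv.Perm V) := by
  classical
  have h1 : U.card * cnt U u = ∑ w ∈ U, cnt U w := by
    rw [Finset.sum_congr rfl fun w hw => le_antisymm (cnt_le hw hu) (cnt_le hu hw)]
    simp
  rw [h1]
  unfold cnt
  rw [← Finset.card_biUnion]
  · rw [← Finset.card_univ]
    congr 1
    ext σ
    simp only [Finset.mem_biUnion, Finset.mem_filter, Finset.mem_univ, true_and, iff_true]
    obtain ⟨w, hw⟩ := exists_mi σ ⟨u, hu⟩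
    exact ⟨w, hw.1, hw⟩
  · intro w _ x _ hwx
    rw [Function.onFun, Finset.disjoint_left]
    intro σ h1 h2
    simp only [Finset.mem_filter, Finset.mem_univ, true_and] at h1 h2
    exact hwx (mi_unique h1 h2)

/-- The probability that the minimum of `U` lies in `A` is `|A| / |U|`. -/
lemma card_min_le {U A : Finset V} (hA : A ⊆ U) {δ : ℝ} (h : (A.card : ℝ) ≤ 2 * δ * U.card)
    (hU : U.Nonempty) (P : Equiv.Perm V → Prop) [DecidablePred P]
    (hP : ∀ σ, P σ → ∃ u ∈ A, Mi σ U u) :
    ((Finset.univ.filter P).card : ℝ) ≤ 2 * δ * Fintype.card (Equiv.Perm V) := by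
  classical
  have hU0 : (0 : ℝ) < U.card := by exact_mod_cast hU.card_pos
  have h1 : (Finset.univ.filter P).card ≤ ∑ u ∈ A, cnt U u := by
    have : Finset.univ.filter P ⊆
        A.biUnion fun u => Finset.univ.filter fun σ : Equiv.Perm V => Mi σ U u := by
      intro σ hσ
      simp only [Finset.mem_filter, Finset.mem_univ, true_and] at hσ
      obtain ⟨u, hu, hm⟩ := hP σ hσ
      simp only [Finset.mem_biUnion, Finset.mem_filter, Finset.mem_univ, true_and]
      exact ⟨u, hu, hm⟩
    exact (Finset.card_le_card this).trans Finset.card_biUnion_le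
  have h2 : ∀ u ∈ A, (cnt U u : ℝ) = Fintype.card (Equiv.Perm V) / U.card := by
    intro u hu
    rw [eq_div_iff hU0.ne', mul_comm]
    exact_mod_cast cnt_mul (hA hu)
  calc ((Finset.univ.filter P).card : ℝ) ≤ ((∑ u ∈ A, cnt U u : ℕ) : ℝ) := by exact_mod_cast h1
    _ = A.card * (Fintype.card (Equiv.Perm V) / U.card) := by
        rw [Nat.cast_sum, Finset.sum_congr rfl h2]; simp
    _ ≤ 2 * δ * U.card * (Fintype.card (Equiv.Perm V) / U.card) := by
        apply mul_le_mul_of_nonneg_right h; positivity
    _ = 2 * δ * Fintype.card (Equiv.Perm V) := by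
        field_simp

end Pri

open Pri

theorem pri : PriStmt := by
  classical
  intro G V _ _ a Q T R δ hQ hT hQR hTR hTQ
  -- the maps `c σ`
  have hex : ∀ (σ : Equiv.Perm V) (v : V), ∃ q ∈ Q, Mi σ (Q.image (a v)) (a v q) := by
    intro σ v
    obtain ⟨u, hu⟩ := exists_mi σ (hQ.image (a v))
    obtain ⟨q, hq, rfl⟩ := Finset.mem_image.1 hu.1
    exact ⟨q, hq, hu⟩
  choose k hk hmi using hex
  let c : Equiv.Perm V → V → V := fun σ v => a v (k σ v)
  -- the estimate for one `t` and one good point
  have hgood : ∀ t ∈ T, ∀ v ∈ Gd a R,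
      ((Finset.univ.filter fun σ => c σ (a v t) ≠ c σ v).card : ℝ) ≤
        2 * δ * Fintype.card (Equiv.Perm V) := by
    intro t ht v hv
    obtain ⟨_, hact, hfree⟩ := hv
    set W := Q.image (a v) with hW
    set W' := Q.image (fun q => a v (t * q)) with hW'
    have hWt : Q.image (a (a v t)) = W' := by
      rw [hW']
      exact Finset.image_congr fun q hq => hact t (hTR ht) q (hQR hq)
    have hcW : W.card = Q.card := by
      rw [hW]
      refine Finset.card_image_of_injOn ?_
      intro q hq q' hq' h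
      exact hfree q (hQR hq) q' (hQR hq') h
    have hcW' : W'.card = Q.card := by
      rw [hW']
      refine Finset.card_image_of_injOn ?_
      intro q hq q' hq' h
      exact mul_left_cancel (hfree _ (hTQ t ht q hq) _ (hTQ t ht q' hq') h)
    have hd1 : ((W' \ W).card : ℝ) ≤ δ * Q.card := by
      refine le_trans ?_ (hT t ht)
      have hfin : ({q | q ∈ Q ∧ t * q ∉ Q} : Set G) = ↑(Q.filter fun q => t * q ∉ Q) := by
        ext q; simp
      rw [hfin, Set.ncard_coe_finset]
      have : W' \ W ⊆ (Q.filter fun q => t * q ∉ Q).image (fun q => a v (t * q)) := by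
        intro x hx
        rw [Finset.mem_sdiff] at hx
        obtain ⟨q, hq, rfl⟩ := Finset.mem_image.1 hx.1
        refine Finset.mem_image.2 ⟨q, ?_, rfl⟩
        rw [Finset.mem_filter]
        refine ⟨hq, fun h => hx.2 ?_⟩
        exact Finset.mem_image.2 ⟨t * q, h, rfl⟩
      exact_mod_cast (Finset.card_le_card this).trans Finset.card_image_le
    have hd2 : ((W \ W').card : ℝ) ≤ δ * Q.card := by
      rw [Finset.card_sdiff_comm (hcW.trans hcW'.symm)]
      exact hd1
    have hU : (W ∪ W').Nonempty := (hQ.image (a v)).mono Finset.subset_union_left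
    have hδ : 0 ≤ δ := by
      have h1 : (0 : ℝ) < Q.card := by exact_mod_cast hQ.card_pos
      have h2 : (0 : ℝ) ≤ δ * Q.card := le_trans (Nat.cast_nonneg _) hd1
      exact nonneg_of_mul_nonneg_left h2 h1
    refine card_min_le (U := W ∪ W') (A := (W \ W') ∪ (W' \ W)) ?_ ?_ hU _ ?_
    · intro x hx
      rw [Finset.mem_union, Finset.mem_sdiff, Finset.mem_sdiff] at hx
      rw [Finset.mem_union]
      tauto
    · have h1 : (((W \ W') ∪ (W' \ W)).card : ℝ) ≤ (W \ W').card + (W' \ W).card := by
        exact_mod_cast Finset.card_union_le _ _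
      have h2 : (Q.card : ℝ) ≤ (W ∪ W').card := by
        rw [← hcW]
        exact_mod_cast Finset.card_le_card Finset.subset_union_left
      nlinarith
    · intro σ hσ
      obtain ⟨u, hu⟩ := exists_mi σ hU
      refine ⟨u, ?_, hu⟩
      by_contra hA
      apply hσ
      have hu' := hu.1
      rw [Finset.mem_union] at hu'
      rw [Finset.mem_union, Finset.mem_sdiff, Finset.mem_sdiff] at hA
      have huW : u ∈ W := by tauto
      have huW' : u ∈ W' := by tauto
      have h1 : c σ v = u :=
        mi_unique (hmi σ v) (mi_subset hu Finset.subset_union_left huW)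
      have h2 : c σ (a v t) = u := by
        have h3 := hmi σ (a v t)
        rw [hWt] at h3
        exact mi_unique h3 (mi_subset hu Finset.subset_union_right huW')
      rw [h1, h2]
  -- summation
  have hsum : ∀ t ∈ T, ∑ σ : Equiv.Perm V, (({v | c σ (a v t) ≠ c σ v} : Set V).ncard : ℝ) ≤
      Fintype.card (Equiv.Perm V) * (2 * δ * Fintype.card V + nb a R) := by
    intro t ht
    have hδ : 0 ≤ δ := by
      have h1 : (0 : ℝ) < Q.card := by exact_mod_cast hQ.card_pos
      have h2 : (0 : ℝ) ≤ δ * Q.card := le_trans (Nat.cast_nonneg _) (hT t ht)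
      exact nonneg_of_mul_nonneg_left h2 h1
    have h1 : ∑ σ : Equiv.Perm V, (({v | c σ (a v t) ≠ c σ v} : Set V).ncard : ℝ) =
        ∑ v : V, ((Finset.univ.filter fun σ => c σ (a v t) ≠ c σ v).card : ℝ) := by
      have h2 : ∀ σ : Equiv.Perm V, (({v | c σ (a v t) ≠ c σ v} : Set V).ncard : ℝ) =
          ∑ v : V, if c σ (a v t) ≠ c σ v then (1 : ℝ) else 0 := by
        intro σ
        have : ({v | c σ (a v t) ≠ c σ v} : Set V) =
            ↑(Finset.univ.filter fun v => c σ (a v t) ≠ c σ v) := by
          ext v; simp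
        rw [this, Set.ncard_coe_finset, Finset.card_filter]
        push_cast
        rfl
      rw [Finset.sum_congr rfl fun σ _ => h2 σ, Finset.sum_comm]
      refine Finset.sum_congr rfl fun v _ => ?_
      rw [Finset.card_filter]
      push_cast
      rfl
    rw [h1]
    have h3 : ∀ v : V, ((Finset.univ.filter fun σ => c σ (a v t) ≠ c σ v).card : ℝ) ≤
        Fintype.card (Equiv.Perm V) * (2 * δ + if v ∈ (Gd a R)ᶜ then 1 else 0) := by
      intro v
      by_cases hv : v ∈ Gd a R
      · rw [if_neg (show ¬ v ∈ (Gd a R)ᶜ from fun h => h hv)]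
        have := hgood t ht v hv
        linarith
      · rw [if_pos (show v ∈ (Gd a R)ᶜ from hv)]
        have h4 : ((Finset.univ.filter fun σ => c σ (a v t) ≠ c σ v).card : ℝ) ≤
            Fintype.card (Equiv.Perm V) := by
          exact_mod_cast Finset.card_filter_le _ _
        have h5 : (0 : ℝ) ≤ Fintype.card (Equiv.Perm V) := Nat.cast_nonneg _
        nlinarith
    refine (Finset.sum_le_sum fun v _ => h3 v).trans (le_of_eq ?_)
    rw [← Finset.mul_sum, Finset.sum_add_distrib]
    congr 2
    · simp; ring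
    · unfold nb
      have : ((Gd a R)ᶜ : Set V) = ↑(Finset.univ.filter fun v => v ∈ (Gd a R)ᶜ) := by
        ext v; simp
      conv_rhs => rw [this, Set.ncard_coe_finset, Finset.card_filter]
      push_cast
      rfl
  -- choice of the permutation
  have htot : ∑ σ : Equiv.Perm V, ∑ t ∈ T, (({v | c σ (a v t) ≠ c σ v} : Set V).ncard : ℝ) ≤
      ∑ _σ : Equiv.Perm V, (T.card * (2 * δ * Fintype.card V + nb a R) : ℝ) := by
    rw [Finset.sum_comm]
    refine (Finset.sum_le_sum hsum).trans (le_of_eq ?_)
    simp only [Finset.sum_const, nsmul_eq_mul, Finset.card_univ]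
    ring
  obtain ⟨σ, _, hσ⟩ := Finset.exists_le_of_sum_le Finset.univ_nonempty htot
  exact ⟨c σ, fun v => ⟨k σ v, hk σ v, rfl⟩, hσ⟩

end Pool.Agent.LT
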